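import Mathlib

set_option autoImplicit false

/-!
# Matrix monomial manifolds need not be extremal

For every `m ≥ 2` (indeed every `m ≥ 1`) there are pairwise distinct nonempty words `p_1, …, p_n`
in `r` letters such that for every `r`-tuple `X` of real `m × m` matrices the columns of
`p_1(X) ⊕ ⋯ ⊕ p_n(X)` satisfy a nontrivial linear relation with integer coefficients. The reason is
a polynomial identity of the algebra of `m × m` matrices.
-/

namespace Pool.Agent.Results.MP_ce417a_nt.NotExtremal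

open Matrix MeasureTheory

/-- The space of real `a × b` matrices is measured by Lebesgue measure on the entries. -/
abbrev Mat (m : ℕ) := Matrix (Fin m) (Fin m) ℝ

/-- The value `p(X)` of the noncommutative monomial (word) `p` in `r` letters at the `r`-tuple `X`
of `m × m` matrices. -/
def evalWord {m r : ℕ} (p : List (Fin r)) (X : Fin r → Mat m) : Mat m := (p.map X).prod

/-- The matrix `ψ^(P)(X) = p_1(X) ⊕ ⋯ ⊕ p_n(X)` with `m` rows and `m n` columns; the columns are
indexed by the pairs `(l, j)`, column `(l, j)` being the `j`-th column of `p_l(X)`. -/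
def psi {m r n : ℕ} (P : Fin n → List (Fin r)) (X : Fin r → Mat m) :
    Matrix (Fin m) (Fin n × Fin m) ℝ := fun i c => evalWord (P c.1) X i c.2

/-- `A` (with `m` rows and columns indexed by `κ`) is very well approximable: for some
`w > |κ| / m` the inequality `‖A q - p‖ < ‖q‖ ^ (-w)` holds for infinitely many nonzero integer
vectors `q`, with suitable integer vectors `p` (sup-norms). -/
def IsVWA {m : ℕ} {κ : Type} [Fintype κ] (A : Matrix (Fin m) κ ℝ) : Prop :=
  ∃ w : ℝ, (Fintype.card κ : ℝ) / m < w ∧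
    {q : κ → ℤ | q ≠ 0 ∧ ∃ p : Fin m → ℤ,
      ‖A *ᵥ (fun c => (q c : ℝ)) - (fun i => (p i : ℝ))‖ < ‖(fun c => (q c : ℝ))‖ ^ (-w)}.Infinite

/-- `A` is very well multiplicatively approximable: for some `w > 1` the inequality
`∏_i |(A q - p)_i| < (∏_j max (|q_j|, 1)) ^ (-w)` holds for infinitely many nonzero integer
vectors `q`, with suitable integer vectors `p`. -/
def IsVWMA {m : ℕ} {κ : Type} [Fintype κ] (A : Matrix (Fin m) κ ℝ) : Prop :=
  ∃ w : ℝ, 1 < w ∧
    {q : κ → ℤ | q ≠ 0 ∧ ∃ p : Fin m → ℤ,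
      ∏ i, |(A *ᵥ (fun c => (q c : ℝ))) i - (p i : ℝ)| <
        (∏ c, max |(q c : ℝ)| 1) ^ (-w)}.Infinite

/-- The manifold of `P` is extremal: `ψ^(P)(X)` is not very well approximable for Lebesgue-almost
every `X`. -/
def Extremal (m : ℕ) {r n : ℕ} (P : Fin n → List (Fin r)) : Prop :=
  ∀ᵐ X : Fin r → Fin m → Fin m → ℝ, ¬ IsVWA (psi P (fun k => Matrix.of (X k)))

/-- The manifold of `P` is strongly extremal: `ψ^(P)(X)` is not very well multiplicatively
approximable for Lebesgue-almost every `X`. -/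
def StronglyExtremal (m : ℕ) {r n : ℕ} (P : Fin n → List (Fin r)) : Prop :=
  ∀ᵐ X : Fin r → Fin m → Fin m → ℝ, ¬ IsVWMA (psi P (fun k => Matrix.of (X k)))

/-- the standard polynomial of degree `m ^ 2 + 1` vanishes on `m × m` matrices -/
lemma standard_identity (m : ℕ) (X : Fin (m ^ 2 + 1) → Mat m) :
    ∑ σ : Equiv.Perm (Fin (m ^ 2 + 1)),
      Equiv.Perm.sign σ • (List.ofFn (fun k => X (σ k))).prod = 0 := by
  have hdep : ¬ LinearIndependent ℝ X := by
    intro h
    have h1 := h.fintype_card_le_finrank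
    rw [Module.finrank_matrix] at h1
    simp at h1
    nlinarith
  have h := (MultilinearMap.alternatization
    (MultilinearMap.mkPiAlgebraFin ℝ (m ^ 2 + 1) (Mat m))).map_linearDependent X hdep
  rw [MultilinearMap.alternatization_apply] at h
  simpa using h

lemma infinite_of_relation {κ : Type} [Fintype κ] (S : Set (κ → ℤ)) (q : κ → ℤ)
    (hq : q ≠ 0) (h : ∀ k : ℕ, 0 < k → k • q ∈ S) : S.Infinite := by
  have hinj : Set.InjOn (fun k : ℕ => k • q) (Set.Ioi 0) := by
    intro a _ b _ hab
    obtain ⟨c, hc⟩ := Function.ne_iff.1 hq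
    have h1 := congrFun hab c
    simp only [Pi.smul_apply, nsmul_eq_mul] at h1
    have h2 := mul_right_cancel₀ hc h1
    exact_mod_cast h2
  refine ((Set.Ioi_infinite 0).image hinj).mono ?_
  rintro _ ⟨k, hk, rfl⟩
  exact h k hk

lemma vwa_of_relation {m : ℕ} {κ : Type} [Fintype κ] (A : Matrix (Fin m) κ ℝ) (hm : 0 < m)
    (q : κ → ℤ) (hq : q ≠ 0) (h : A *ᵥ (fun c => (q c : ℝ)) = 0) : IsVWA A ∧ IsVWMA A := by
  have hk : ∀ k : ℕ, A *ᵥ (fun c => (((k • q) c : ℤ) : ℝ)) = 0 := by
    intro k
    have e : (fun c => (((k • q) c : ℤ) : ℝ)) = (k : ℝ) • (fun c => (q c : ℝ)) := by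
      ext c
      simp
    rw [e, Matrix.mulVec_smul, h, smul_zero]
  have hne : ∀ k : ℕ, 0 < k → k • q ≠ 0 := by
    intro k hk h0
    rcases smul_eq_zero.1 h0 with h1 | h1
    · omega
    · exact hq h1
  constructor
  · refine ⟨(Fintype.card κ : ℝ) / m + 1, by linarith, infinite_of_relation _ q hq ?_⟩
    intro k hk0
    refine ⟨hne k hk0, 0, ?_⟩
    rw [hk k]
    have e0 : ((0 : Fin m → ℝ) - fun i => (((0 : Fin m → ℤ) i : ℤ) : ℝ)) = 0 := by
      ext i
      simp
    rw [e0, norm_zero]
    apply Real.rpow_pos_of_pos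
    rw [norm_pos_iff]
    intro h0
    apply hne k hk0
    ext c
    have h1 : (((k • q) c : ℤ) : ℝ) = 0 := congrFun h0 c
    show (k • q) c = 0
    exact_mod_cast h1
  · refine ⟨2, by norm_num, infinite_of_relation _ q hq ?_⟩
    intro k hk0
    refine ⟨hne k hk0, 0, ?_⟩
    rw [hk k]
    have e0 : ∏ i : Fin m, |(0 : Fin m → ℝ) i - (((0 : Fin m → ℤ) i : ℤ) : ℝ)| = 0 := by
      apply Finset.prod_eq_zero (Finset.mem_univ (⟨0, hm⟩ : Fin m))
      simp
    rw [e0]
    apply Real.rpow_pos_of_pos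
    apply Finset.prod_pos
    intro c _
    exact lt_of_lt_of_le one_pos (le_max_right _ _)

/-- **Theorem.** For every `m ≥ 1` there are `r, n ≥ 1` and a sequence `P` of `n` pairwise distinct
nonempty words in `r` letters such that for EVERY `r`-tuple `X` of real `m × m` matrices there is a
nonzero integer vector `q` with `ψ^(P)(X) q = 0`, and `ψ^(P)(X)` is very well approximable and very
well multiplicatively approximable. In particular the manifold of `P` is neither extremal nor
strongly extremal. -/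
theorem result :
    ∀ m : ℕ, 1 ≤ m → ∃ (r n : ℕ) (P : Fin n → List (Fin r)), 1 ≤ r ∧ 1 ≤ n ∧
      Function.Injective P ∧ (∀ l, P l ≠ []) ∧
      (∃ q : Fin n × Fin m → ℤ, q ≠ 0 ∧
        ∀ X : Fin r → Mat m, psi P X *ᵥ (fun c => (q c : ℝ)) = 0) ∧
      (∀ X : Fin r → Mat m, IsVWA (psi P X) ∧ IsVWMA (psi P X)) ∧
      ¬ Extremal m P ∧ ¬ StronglyExtremal m P := by
  intro m hm
  set K := m ^ 2 + 1 with hK
  let e : Fin (Fintype.card (Equiv.Perm (Fin K))) ≃ Equiv.Perm (Fin K) :=
    (Fintype.equivFin (Equiv.Perm (Fin K))).symm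
  let P : Fin (Fintype.card (Equiv.Perm (Fin K))) → List (Fin K) := fun l => List.ofFn (e l)
  have hinj : Function.Injective P := by
    intro a b hab
    have h1 := List.ofFn_injective hab
    exact e.injective (DFunLike.coe_injective h1)
  have hne : ∀ l, P l ≠ [] := by
    intro l h
    have := congrArg List.length h
    simp [P, hK] at this
  let q : Fin (Fintype.card (Equiv.Perm (Fin K))) × Fin m → ℤ := fun c =>
    if (c.2 : ℕ) = 0 then ((Equiv.Perm.sign (e c.1) : ℤˣ) : ℤ) else 0
  have hcard : 0 < Fintype.card (Equiv.Perm (Fin K)) := Fintype.card_pos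
  have hq : q ≠ 0 := by
    intro h
    have h1 := congrFun h (⟨0, hcard⟩, ⟨0, hm⟩)
    simp [q] at h1
  have hrel : ∀ X : Fin K → Mat m, psi P X *ᵥ (fun c => (q c : ℝ)) = 0 := by
    intro X
    ext i
    have h1 := congrFun (congrFun (standard_identity m X) i) ⟨0, hm⟩
    rw [Matrix.sum_apply] at h1
    simp only [Matrix.mulVec, dotProduct, Pi.zero_apply]
    rw [Fintype.sum_prod_type]
    have h2 : ∀ l : Fin (Fintype.card (Equiv.Perm (Fin K))),
        ∑ j : Fin m, psi P X i (l, j) * ((q (l, j) : ℤ) : ℝ) =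
          (Equiv.Perm.sign (e l) • (List.ofFn (fun k => X (e l k))).prod) i ⟨0, hm⟩ := by
      intro l
      rw [Finset.sum_eq_single (⟨0, hm⟩ : Fin m)]
      · have e1 : psi P X i (l, ⟨0, hm⟩) = (List.ofFn (fun k => X (e l k))).prod i ⟨0, hm⟩ := by
          show ((List.ofFn (e l)).map X).prod i ⟨0, hm⟩ = _
          rw [List.map_ofFn]
          rfl
        rw [e1]
        rcases Int.units_eq_one_or (Equiv.Perm.sign (e l)) with h | h
        · simp [q, h]
        · simp [q, h]
      · intro j _ hj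
        have : (j : ℕ) ≠ 0 := fun h => hj (Fin.ext h)
        simp [q, this]
      · intro h
        exact absurd (Finset.mem_univ _) h
    rw [Finset.sum_congr rfl (fun l _ => h2 l)]
    exact (e.sum_comp (fun σ : Equiv.Perm (Fin K) =>
      (Equiv.Perm.sign σ • (List.ofFn (fun k => X (σ k))).prod) i ⟨0, hm⟩)).trans h1
  have hall : ∀ X : Fin K → Mat m, IsVWA (psi P X) ∧ IsVWMA (psi P X) := fun X =>
    vwa_of_relation _ hm q hq (hrel X)
  have hvol : ∀ Q : (Fin K → Fin m → Fin m → ℝ) → Prop, (∀ X, Q X) →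
      ¬ ∀ᵐ X : Fin K → Fin m → Fin m → ℝ, ¬ Q X := by
    intro Q hQ h
    rw [ae_iff] at h
    have h1 : {X : Fin K → Fin m → Fin m → ℝ | ¬ ¬ Q X} = Set.univ := by
      ext X
      simp [hQ X]
    rw [h1] at h
    have hop : (volume : Measure (Fin m → Fin m → ℝ)).IsOpenPosMeasure := inferInstance
    exact (isOpen_univ.measure_pos (volume : Measure (Fin K → Fin m → Fin m → ℝ))
      Set.univ_nonempty).ne' h
  exact ⟨K, _, P, by omega, hcard, hinj, hne, ⟨q, hq, hrel⟩, hall,
    hvol _ (fun X => (hall _).1), hvol _ (fun X => (hall _).2)⟩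

end Pool.Agent.Results.MP_ce417a_nt.NotExtremal
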